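import Mathlib

set_option autoImplicit false

/-!
# MP_4cfb12_co: a quadratic APN function in dimension three with linear ortho-derivative

`F(x) = (x₁x₂, x₁x₃, x₂x₃)` on `𝔽₂³`.  Here `D_aF(x) + D_aF(0)` is the cross product of `a` and `x`
(with its coordinates in reverse order), so `F` is APN and its ortho-derivative is
`a ↦ (a₃, a₂, a₁)`, a linear map.
-/

namespace Pool.Agent.Results.MP_4cfb12_co.LinearOrtho

/-- The space `𝔽₂ⁿ`. -/
abbrev V (n : ℕ) : Type := Fin n → ZMod 2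

/-- The dot product. -/
def dot {n : ℕ} (u v : V n) : ZMod 2 := ∑ i, u i * v i

/-- The derivative `D_aF(x) = F(x + a) + F(x)`. -/
def D {n : ℕ} (F : V n → V n) (a x : V n) : V n := F (x + a) + F x

/-- `F` is almost perfect nonlinear. -/
def IsAPN {n : ℕ} (F : V n → V n) : Prop :=
  ∀ a b : V n, a ≠ 0 → (Finset.univ.filter fun x => D F a x = b).card ≤ 2

/-- `F` is quadratic: in the algebraic normal form `F_i(x) = ∑_S c_{i,S} ∏_{j ∈ S} x_j` of its
coordinates, all monomials that occur have degree at most `2`, and one of them has degree `2`. -/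
def IsQuadratic {n : ℕ} (F : V n → V n) : Prop :=
  ∃ c : Fin n → Finset (Fin n) → ZMod 2, (∀ x i, F x i = ∑ S, c i S * ∏ j ∈ S, x j) ∧
    (∀ i S, c i S ≠ 0 → S.card ≤ 2) ∧ ∃ i S, c i S ≠ 0 ∧ S.card = 2

/-- `π` is the ortho-derivative of `F`: `π(0) = 0`, and for `a ≠ 0` the vector `π(a)` is the unique
nonzero vector orthogonal to all `D_aF(x) + D_aF(0)`. -/
def IsOrthoDerivative {n : ℕ} (F π : V n → V n) : Prop :=
  π 0 = 0 ∧ ∀ a, a ≠ 0 → ∀ v : V n, (v ≠ 0 ∧ ∀ x, dot v (D F a x + D F a 0) = 0) ↔ v = π a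

/-- The nonlinearity `NL(G)`: the least number of `x` with `b·G(x) ≠ u·x + c`, over all `b ≠ 0` and
all affine functions `x ↦ u·x + c`. -/
noncomputable def NL {n : ℕ} (G : V n → V n) : ℕ :=
  sInf {k | ∃ b u : V n, ∃ c : ZMod 2, b ≠ 0 ∧
    k = (Finset.univ.filter fun x => dot b (G x) ≠ dot u x + c).card}

/-- the example -/
def F₀ (x : V 3) : V 3 := ![x 0 * x 1, x 0 * x 2, x 1 * x 2]

/-- its ortho-derivative -/
def π₀ (a : V 3) : V 3 := ![a 2, a 1, a 0]

/-- its coefficients -/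
def c₀ (i : Fin 3) (S : Finset (Fin 3)) : ZMod 2 :=
  if (i = 0 ∧ S = {0, 1}) ∨ (i = 1 ∧ S = {0, 2}) ∨ (i = 2 ∧ S = {1, 2}) then 1 else 0

/-- **There is a quadratic APN function** on `𝔽₂³` **whose ortho-derivative has nonlinearity** `0`. -/
theorem result : ∃ n : ℕ, 3 ≤ n ∧ ∃ F π : V n → V n, IsQuadratic F ∧ IsAPN F ∧
    IsOrthoDerivative F π ∧ NL π = 0 := by
  refine ⟨3, le_rfl, F₀, π₀, ⟨c₀, ?_, ?_, ?_⟩, ?_, ⟨?_, ?_⟩, ?_⟩
  · decide
  · decide
  · exact ⟨0, {0, 1}, by decide, by decide⟩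
  · unfold IsAPN
    decide
  · decide
  · decide
  · refine Nat.sInf_eq_zero.2 (Or.inl ?_)
    refine ⟨![1, 0, 0], ![0, 0, 1], 0, by decide, ?_⟩
    decide

end Pool.Agent.Results.MP_4cfb12_co.LinearOrtho
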